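import Mathlib

/-!
PROJECT AllSystems (MP_d3128a_ag). The two greedy lemmas: from the closed forms to groups.
-/

set_option autoImplicit false

namespace Pool.Agent.Helper79.AS

open Finset

/-- A top segment of `S` with sum just above `h`. -/
theorem exTop {ι : Type*} [DecidableEq ι] (S : Finset ι) (w : ι → ℕ) (h : ℝ) (mm : ℕ)
    (hm : ∀ i ∈ S, w i ≤ mm) (hS : h ≤ ∑ i ∈ S, (w i : ℝ)) (hh : 0 < h) :
    ∃ G ⊆ S, G.Nonempty ∧ h ≤ ∑ i ∈ G, (w i : ℝ) ∧ ∑ i ∈ G, (w i : ℝ) < h + mm ∧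
      ∀ i ∈ G, ∀ j ∈ S \ G, w j ≤ w i := by
  classical
  have hne : (S.powerset.filter (fun G => h ≤ ∑ i ∈ G, (w i : ℝ) ∧
      ∀ i ∈ G, ∀ j ∈ S \ G, w j ≤ w i)).Nonempty := by
    refine ⟨S, ?_⟩
    simp only [mem_filter, mem_powerset, subset_refl, true_and]
    refine ⟨hS, ?_⟩
    intro i _ j hj
    simp at hj
  obtain ⟨G, hG, hmin⟩ := exists_min_image _ (fun G : Finset ι => G.card) hne
  simp only [mem_filter, mem_powerset] at hG
  obtain ⟨hGS, hGh, hGu⟩ := hG
  have hGne : G.Nonempty := by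
    rcases Finset.eq_empty_or_nonempty G with h0 | h0
    · subst h0
      simp at hGh
      linarith
    · exact h0
  obtain ⟨i0, hi0, hi0min⟩ := exists_min_image G w hGne
  refine ⟨G, hGS, hGne, hGh, ?_, hGu⟩
  by_contra hcon
  push Not at hcon
  have hsum : ∑ i ∈ G.erase i0, (w i : ℝ) + w i0 = ∑ i ∈ G, (w i : ℝ) :=
    Finset.sum_erase_add _ _ hi0
  have hle : (w i0 : ℝ) ≤ mm := by exact_mod_cast hm i0 (hGS hi0)
  have hmem : G.erase i0 ∈ S.powerset.filter (fun G => h ≤ ∑ i ∈ G, (w i : ℝ) ∧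
      ∀ i ∈ G, ∀ j ∈ S \ G, w j ≤ w i) := by
    simp only [mem_filter, mem_powerset]
    refine ⟨(erase_subset _ _).trans hGS, by linarith, ?_⟩
    intro i hi j hj
    have hiG : i ∈ G := mem_of_mem_erase hi
    rw [mem_sdiff] at hj
    by_cases hjG : j ∈ G
    · have : j = i0 := by
        by_contra hne
        exact hj.2 (mem_erase.mpr ⟨hne, hjG⟩)
      rw [this]
      exact hi0min i hiG
    · exact hGu i hiG j (mem_sdiff.mpr ⟨hj.1, hjG⟩)
  have h1 := hmin _ hmem
  have h2 : (G.erase i0).card < G.card := card_erase_lt_of_mem hi0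
  omega

/-- A top segment of `S` with sum just below `h`. -/
theorem exTop' {ι : Type*} [DecidableEq ι] (S : Finset ι) (w : ι → ℕ) (h : ℝ) (mm : ℕ)
    (hm : ∀ i ∈ S, w i ≤ mm) (hS : h < ∑ i ∈ S, (w i : ℝ)) (hh : (mm : ℝ) < h) :
    ∃ G ⊆ S, G.Nonempty ∧ ∑ i ∈ G, (w i : ℝ) ≤ h ∧ h - mm ≤ ∑ i ∈ G, (w i : ℝ) ∧
      ∀ i ∈ G, ∀ j ∈ S \ G, w j ≤ w i := by
  classical
  have h00 : (0 : ℝ) ≤ mm := Nat.cast_nonneg _
  have hne : (S.powerset.filter (fun G => ∑ i ∈ G, (w i : ℝ) ≤ h ∧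
      ∀ i ∈ G, ∀ j ∈ S \ G, w j ≤ w i)).Nonempty := by
    refine ⟨∅, ?_⟩
    simp only [mem_filter, mem_powerset, empty_subset, true_and, sum_empty]
    refine ⟨by linarith, ?_⟩
    intro i hi
    simp at hi
  obtain ⟨G, hG, hmax⟩ := exists_max_image _ (fun G : Finset ι => G.card) hne
  simp only [mem_filter, mem_powerset] at hG
  obtain ⟨hGS, hGh, hGu⟩ := hG
  have hSG : (S \ G).Nonempty := by
    rcases Finset.eq_empty_or_nonempty (S \ G) with h0 | h0
    · have : S = G := subset_antisymm (sdiff_eq_empty_iff_subset.mp h0) hGS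
      rw [this] at hS
      linarith
    · exact h0
  obtain ⟨j0, hj0, hj0max⟩ := exists_max_image (S \ G) w hSG
  rw [mem_sdiff] at hj0
  have hsum : ∑ i ∈ insert j0 G, (w i : ℝ) = w j0 + ∑ i ∈ G, (w i : ℝ) :=
    Finset.sum_insert hj0.2
  have hle : (w j0 : ℝ) ≤ mm := by exact_mod_cast hm j0 hj0.1
  have hlow : h - mm ≤ ∑ i ∈ G, (w i : ℝ) := by
    by_contra hcon
    push Not at hcon
    have hmem : insert j0 G ∈ S.powerset.filter (fun G => ∑ i ∈ G, (w i : ℝ) ≤ h ∧
        ∀ i ∈ G, ∀ j ∈ S \ G, w j ≤ w i) := by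
      simp only [mem_filter, mem_powerset]
      refine ⟨insert_subset hj0.1 hGS, by linarith, ?_⟩
      intro i hi j hj
      rw [mem_sdiff, mem_insert, not_or] at hj
      rcases mem_insert.mp hi with rfl | hiG
      · exact hj0max j (mem_sdiff.mpr ⟨hj.1, hj.2.2⟩)
      · exact hGu i hiG j (mem_sdiff.mpr ⟨hj.1, hj.2.2⟩)
    have h1 := hmax _ hmem
    have h2 : (insert j0 G).card = G.card + 1 := card_insert_of_notMem hj0.2
    omega
  refine ⟨G, hGS, ?_, hGh, hlow, hGu⟩
  rcases Finset.eq_empty_or_nonempty G with h0 | h0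
  · subst h0
    simp at hlow
    linarith
  · exact h0

/-- The greedy groups, empty side. -/
theorem greedyE {ι : Type*} [DecidableEq ι] (w : ι → ℕ) (h : ℝ) (hh : 0 < h) (mm : ℕ) :
    ∀ (k : ℕ) (S : Finset ι) (T : ℕ), S.card ≤ k → (∀ i ∈ S, w i ≤ T) → T ≤ mm →
      ∃ (b : ℕ) (g : ι → Option (Fin b)) (mn : Fin b → ℕ),
        (∀ i, i ∉ S → g i = none) ∧ (∀ i c, g i = some c → mn c ≤ w i) ∧
        (∀ c, h ≤ ∑ i ∈ S with g i = some c, (w i : ℝ)) ∧
        (∑ i ∈ S, (w i : ℝ) ^ 2) / (h + mm) - T ≤ ∑ c, (mn c : ℝ) := by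
  classical
  intro k
  induction k with
  | zero =>
    intro S T hk _ _
    have hS : S = ∅ := by
      rw [← Finset.card_eq_zero]
      omega
    subst hS
    refine ⟨0, fun _ => none, fun c => c.elim0, fun _ _ => rfl, ?_, fun c => c.elim0, ?_⟩
    · intro i c hc
      exact c.elim0
    · simp
  | succ k ih =>
    intro S T hk hT hTm
    have hpos : 0 < h + (mm : ℝ) := by
      have : (0 : ℝ) ≤ mm := Nat.cast_nonneg _
      linarith
    have hTr : ∀ i ∈ S, (w i : ℝ) ≤ T := fun i hi => by exact_mod_cast hT i hi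
    by_cases hlt : ∑ i ∈ S, (w i : ℝ) < h
    · refine ⟨0, fun _ => none, fun c => c.elim0, fun _ _ => rfl, ?_, fun c => c.elim0, ?_⟩
      · intro i c hc
        exact c.elim0
      · simp only [univ_eq_empty, sum_empty]
        rw [sub_nonpos, div_le_iff₀ hpos]
        have h1 : ∑ i ∈ S, (w i : ℝ) ^ 2 ≤ ∑ i ∈ S, (T : ℝ) * w i := by
          apply Finset.sum_le_sum
          intro i hi
          rw [sq]
          exact mul_le_mul_of_nonneg_right (hTr i hi) (Nat.cast_nonneg _)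
        rw [← Finset.mul_sum] at h1
        have h2 : (0 : ℝ) ≤ mm := Nat.cast_nonneg _
        have h3 : (0 : ℝ) ≤ T := Nat.cast_nonneg _
        have h4 : (T : ℝ) * ∑ i ∈ S, (w i : ℝ) ≤ T * (h + mm) :=
          mul_le_mul_of_nonneg_left (by linarith) h3
        linarith
    · push Not at hlt
      obtain ⟨G, hGS, hGne, hGh, hGlt, hGu⟩ := exTop S w h T hT hlt hh
      obtain ⟨i0, hi0, hi0min⟩ := exists_min_image G w hGne
      have hcard : (S \ G).card ≤ k := by
        have h1 : (S \ G).card < S.card := by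
          apply Finset.card_lt_card
          refine ⟨sdiff_subset, ?_⟩
          intro hsub
          have := hsub (hGS hi0)
          rw [mem_sdiff] at this
          exact this.2 hi0
        omega
      obtain ⟨b, g, mn, h1, h2, h3, h4⟩ := ih (S \ G) (w i0) hcard
        (fun j hj => hGu i0 hi0 j hj) (le_trans (hT i0 (hGS hi0)) hTm)
      refine ⟨b + 1, fun i => if i ∈ G then some (Fin.last b) else (g i).map Fin.castSucc,
        Fin.snoc (α := fun _ => ℕ) mn (w i0), ?_, ?_, ?_, ?_⟩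
      · intro i hi
        have hiG : i ∉ G := fun h => hi (hGS h)
        simp only [hiG, if_false]
        rw [h1 i (fun h => hi (mem_sdiff.mp h).1)]
        rfl
      · intro i c hc
        by_cases hiG : i ∈ G
        · simp only [hiG, if_true, Option.some.injEq] at hc
          subst hc
          rw [Fin.snoc_last]
          exact hi0min i hiG
        · simp only [hiG, if_false, Option.map_eq_some_iff] at hc
          obtain ⟨c', hc', rfl⟩ := hc
          rw [Fin.snoc_castSucc]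
          exact h2 i c' hc'
      · intro c
        refine Fin.lastCases ?_ (fun c' => ?_) c
        · refine hGh.trans (Finset.sum_le_sum_of_subset_of_nonneg ?_ ?_)
          · intro i hi
            simp only [mem_filter, hi, if_true, and_true]
            exact hGS hi
          · intro i _ _
            exact Nat.cast_nonneg _
        · refine (h3 c').trans (Finset.sum_le_sum_of_subset_of_nonneg ?_ ?_)
          · intro i hi
            simp only [mem_filter, mem_sdiff] at hi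
            simp only [mem_filter, hi.1.2, if_false, hi.1.1, true_and, hi.2, Option.map_some]
          · intro i _ _
            exact Nat.cast_nonneg _
      · rw [Fin.sum_univ_castSucc]
        simp only [Fin.snoc_castSucc, Fin.snoc_last]
        have h5 : ∑ i ∈ S, (w i : ℝ) ^ 2 = ∑ i ∈ S \ G, (w i : ℝ) ^ 2 + ∑ i ∈ G, (w i : ℝ) ^ 2 :=
          (Finset.sum_sdiff hGS).symm
        have h6 : ∑ i ∈ G, (w i : ℝ) ^ 2 ≤ ∑ i ∈ G, (T : ℝ) * w i := by
          apply Finset.sum_le_sum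
          intro i hi
          rw [sq]
          exact mul_le_mul_of_nonneg_right (hTr i (hGS hi)) (Nat.cast_nonneg _)
        rw [← Finset.mul_sum] at h6
        have h7 : (T : ℝ) ≤ mm := by exact_mod_cast hTm
        have h8 : (0 : ℝ) ≤ T := Nat.cast_nonneg _
        have h9 : (T : ℝ) * ∑ i ∈ G, (w i : ℝ) ≤ T * (h + mm) :=
          mul_le_mul_of_nonneg_left (by linarith) h8
        have h10 : (∑ i ∈ G, (w i : ℝ) ^ 2) / (h + mm) ≤ T := by
          rw [div_le_iff₀ hpos]
          linarith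
        rw [h5, add_div]
        linarith

/-- The greedy groups, regular side. -/
theorem greedyR {ι : Type*} [DecidableEq ι] (w : ι → ℕ) (h : ℝ) (mm : ℕ) (hh : (mm : ℝ) < h) :
    ∀ (k : ℕ) (S : Finset ι) (T : ℕ), S.card ≤ k → (∀ i ∈ S, w i ≤ T) → T ≤ mm →
      ∃ (b : ℕ) (g : ι → Option (Fin b)) (mx : Fin b → ℕ),
        (∀ i, i ∉ S → g i = none) ∧ (∀ i ∈ S, ∃ c, g i = some c ∧ w i ≤ mx c) ∧
        (∀ c, ∑ i ∈ S with g i = some c, (w i : ℝ) ≤ h) ∧
        ∑ c, (mx c : ℝ) ≤ T + (∑ i ∈ S, (w i : ℝ) ^ 2) / (h - mm) := by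
  classical
  intro k
  induction k with
  | zero =>
    intro S T hk _ _
    have hS : S = ∅ := by
      rw [← Finset.card_eq_zero]
      omega
    subst hS
    refine ⟨0, fun _ => none, fun c => c.elim0, fun _ _ => rfl, ?_, fun c => c.elim0, ?_⟩
    · intro i hi
      simp at hi
    · simp
  | succ k ih =>
    intro S T hk hT hTm
    have hpos : 0 < h - (mm : ℝ) := by linarith
    have h00 : (0 : ℝ) ≤ mm := Nat.cast_nonneg _
    have hTr : ∀ i ∈ S, (w i : ℝ) ≤ T := fun i hi => by exact_mod_cast hT i hi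
    by_cases hlt : ∑ i ∈ S, (w i : ℝ) ≤ h
    · refine ⟨1, fun i => if i ∈ S then some 0 else none, fun _ => T, ?_, ?_, ?_, ?_⟩
      · intro i hi
        simp [hi]
      · intro i hi
        exact ⟨0, by simp [hi], hT i hi⟩
      · intro c
        refine le_trans (Finset.sum_le_sum_of_subset_of_nonneg (filter_subset _ _) ?_) hlt
        intro i _ _
        exact Nat.cast_nonneg _
      · simp only [univ_unique, sum_const, card_singleton, one_smul]
        have : 0 ≤ (∑ i ∈ S, (w i : ℝ) ^ 2) / (h - mm) := by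
          apply div_nonneg _ hpos.le
          exact Finset.sum_nonneg (fun i _ => sq_nonneg _)
        linarith
    · push Not at hlt
      obtain ⟨G, hGS, hGne, hGh, hGlow, hGu⟩ := exTop' S w h mm
        (fun i hi => (hT i hi).trans hTm) hlt hh
      obtain ⟨i0, hi0, hi0min⟩ := exists_min_image G w hGne
      have hcard : (S \ G).card ≤ k := by
        have h1 : (S \ G).card < S.card := by
          apply Finset.card_lt_card
          refine ⟨sdiff_subset, ?_⟩
          intro hsub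
          have := hsub (hGS hi0)
          rw [mem_sdiff] at this
          exact this.2 hi0
        omega
      obtain ⟨b, g, mx, h1, h2, h3, h4⟩ := ih (S \ G) (w i0) hcard
        (fun j hj => hGu i0 hi0 j hj) (le_trans (hT i0 (hGS hi0)) hTm)
      refine ⟨b + 1, fun i => if i ∈ G then some (Fin.last b) else (g i).map Fin.castSucc,
        Fin.snoc (α := fun _ => ℕ) mx T, ?_, ?_, ?_, ?_⟩
      · intro i hi
        have hiG : i ∉ G := fun h => hi (hGS h)
        simp only [hiG, if_false]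
        rw [h1 i (fun h => hi (mem_sdiff.mp h).1)]
        rfl
      · intro i hi
        by_cases hiG : i ∈ G
        · refine ⟨Fin.last b, by simp [hiG], ?_⟩
          rw [Fin.snoc_last]
          exact hT i hi
        · obtain ⟨c, hc, hc'⟩ := h2 i (mem_sdiff.mpr ⟨hi, hiG⟩)
          refine ⟨Fin.castSucc c, by simp [hiG, hc], ?_⟩
          rw [Fin.snoc_castSucc]
          exact hc'
      · intro c
        refine Fin.lastCases ?_ (fun c' => ?_) c
        · refine le_trans (Finset.sum_le_sum_of_subset_of_nonneg ?_ ?_) hGh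
          · intro i hi
            simp only [mem_filter] at hi
            by_contra hiG
            have h5 := hi.2
            simp only [hiG, if_false, Option.map_eq_some_iff] at h5
            obtain ⟨c', _, hc'⟩ := h5
            exact (Fin.castSucc_lt_last c').ne hc'
          · intro i _ _
            exact Nat.cast_nonneg _
        · refine le_trans (Finset.sum_le_sum_of_subset_of_nonneg ?_ ?_) (h3 c')
          · intro i hi
            simp only [mem_filter] at hi
            have h5 := hi.2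
            by_cases hiG : i ∈ G
            · simp only [hiG, if_true, Option.some.injEq] at h5
              exact absurd h5.symm (Fin.castSucc_lt_last c').ne
            · simp only [hiG, if_false, Option.map_eq_some_iff] at h5
              obtain ⟨c'', hc1, hc2⟩ := h5
              have : c'' = c' := Fin.castSucc_injective _ hc2
              subst this
              simp only [mem_filter, mem_sdiff]
              exact ⟨⟨hi.1, hiG⟩, hc1⟩
          · intro i _ _
            exact Nat.cast_nonneg _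
      · rw [Fin.sum_univ_castSucc]
        simp only [Fin.snoc_castSucc, Fin.snoc_last]
        have h5 : ∑ i ∈ S, (w i : ℝ) ^ 2 = ∑ i ∈ S \ G, (w i : ℝ) ^ 2 + ∑ i ∈ G, (w i : ℝ) ^ 2 :=
          (Finset.sum_sdiff hGS).symm
        have h6 : ∑ i ∈ G, (w i0 : ℝ) * w i ≤ ∑ i ∈ G, (w i : ℝ) ^ 2 := by
          apply Finset.sum_le_sum
          intro i hi
          rw [sq]
          apply mul_le_mul_of_nonneg_right _ (Nat.cast_nonneg _)
          exact_mod_cast hi0min i hi
        rw [← Finset.mul_sum] at h6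
        have h8 : (0 : ℝ) ≤ w i0 := Nat.cast_nonneg _
        have h9 : (w i0 : ℝ) * (h - mm) ≤ w i0 * ∑ i ∈ G, (w i : ℝ) :=
          mul_le_mul_of_nonneg_left (by linarith) h8
        have h10 : (w i0 : ℝ) ≤ (∑ i ∈ G, (w i : ℝ) ^ 2) / (h - mm) := by
          rw [le_div_iff₀ hpos]
          linarith
        rw [h5, add_div]
        linarith

/-- (E). -/
theorem groupsE (n d mm : ℕ) (m : Fin n → ℕ) (δ : ℝ) (hδ : 0 < δ) (hd : 0 < d)
    (hm : ∀ i, m i ≤ mm)
    (h : (δ * d + mm) * (d / δ + mm) ≤ ∑ i, (m i : ℝ) ^ 2) :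
    ∃ (b : ℕ) (g : Fin n → Option (Fin b)) (mn : Fin b → ℕ),
      (∀ i c, g i = some c → mn c ≤ m i) ∧
      (∀ c, (d : ℝ) / δ ≤ ∑ i with g i = some c, (m i : ℝ)) ∧
      δ * d ≤ ∑ c, (mn c : ℝ) := by
  have hd' : (0 : ℝ) < d := by exact_mod_cast hd
  have h0 : (0 : ℝ) < d / δ := by positivity
  obtain ⟨b, g, mn, _, h2, h3, h4⟩ := greedyE m (d / δ) h0 mm _ Finset.univ mm le_rfl
    (fun i _ => hm i) le_rfl
  refine ⟨b, g, mn, h2, h3, le_trans ?_ h4⟩
  have h5 : (0 : ℝ) ≤ mm := Nat.cast_nonneg _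
  have h6 : (0 : ℝ) < d / δ + mm := by linarith
  rw [le_sub_iff_add_le, le_div_iff₀ h6]
  exact h

/-- (R). -/
theorem groupsR (n M : ℕ) (D : ℝ) (m : Fin n → ℕ) (δ : ℝ)
    (hm : ∀ i, m i + 1 ≤ M) (hM : (M : ℝ) < D / δ)
    (h : ∑ i, ((m i : ℝ) + 1) ^ 2 ≤ (δ * D - M) * (D / δ - M)) :
    ∃ (b : ℕ) (g : Fin n → Fin b) (mx : Fin b → ℕ),
      (∀ i, m i + 1 ≤ mx (g i)) ∧
      (∀ c, ∑ i with g i = c, ((m i : ℝ) + 1) ≤ D / δ) ∧
      ∑ c, (mx c : ℝ) ≤ δ * D := by
  obtain ⟨b, g, mx, _, h2, h3, h4⟩ := greedyR (fun i => m i + 1) (D / δ) M hM _ Finset.univ M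
    le_rfl (fun i _ => hm i) le_rfl
  have h2' : ∀ i, ∃ c, g i = some c ∧ m i + 1 ≤ mx c := fun i => h2 i (mem_univ i)
  choose g' hg' hg'' using h2'
  refine ⟨b, g', mx, hg'', ?_, ?_⟩
  · intro c
    have := h3 c
    push_cast at this
    refine le_trans (le_of_eq ?_) this
    apply Finset.sum_congr _ (fun _ _ => rfl)
    ext i
    simp only [mem_filter, mem_univ, true_and, hg', Option.some.injEq]
  · refine le_trans h4 ?_
    have h5 : (0 : ℝ) < D / δ - M := by linarith
    have h6 : (∑ i, (((m i + 1 : ℕ) : ℝ)) ^ 2) / (D / δ - M) ≤ δ * D - M := by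
      rw [div_le_iff₀ h5]
      push_cast
      exact h
    linarith

/-- The number of heights `τ` at which the group `G` still has a sum of at least `s`. -/
def hts {ι : Type*} (m : ι → ℕ) (G : Finset ι) (K s : ℕ) : ℕ :=
  ((Finset.range K).filter (fun τ => s ≤ ∑ i ∈ G, (m i - τ))).card

theorem hts_ge {ι : Type*} (m : ι → ℕ) (G : Finset ι) (K s mn : ℕ) (h : ℝ) (hh : 0 < h)
    (hs : 1 ≤ s) (hK : mn ≤ K) (hmn : ∀ i ∈ G, mn ≤ m i) (hG : h ≤ ∑ i ∈ G, (m i : ℝ)) :
    (mn : ℝ) * (1 - (s - 1) / h) ≤ (hts m G K s : ℝ) := by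
  rcases Nat.eq_zero_or_pos mn with h0 | h0
  · subst h0
    simp
  have h0' : (0 : ℝ) < mn := by exact_mod_cast h0
  have hs' : (1 : ℝ) ≤ s := by exact_mod_cast hs
  have hx1 : (mn : ℝ) * (1 - (s - 1) / h) ≤ mn := by
    have : 0 ≤ ((s : ℝ) - 1) / h := div_nonneg (by linarith) hh.le
    nlinarith
  set x : ℝ := (mn : ℝ) * (1 - (s - 1) / h) with hx
  have hsub : Finset.range ⌈x⌉₊ ⊆ (Finset.range K).filter (fun τ => s ≤ ∑ i ∈ G, (m i - τ)) := by
    intro τ hτ
    rw [Finset.mem_range, Nat.lt_ceil] at hτ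
    have hτm : (τ : ℝ) < mn := by linarith
    have hτm' : τ < mn := by exact_mod_cast hτm
    rw [Finset.mem_filter, Finset.mem_range]
    refine ⟨by omega, ?_⟩
    have h1 : ∀ i ∈ G, (m i : ℝ) * (1 - τ / mn) ≤ ((m i - τ : ℕ) : ℝ) := by
      intro i hi
      have h2 : mn ≤ m i := hmn i hi
      rw [Nat.cast_sub (by omega)]
      have h3 : (mn : ℝ) ≤ m i := by exact_mod_cast h2
      have h4 : (τ : ℝ) ≤ m i * (τ / mn) := by
        rw [← mul_div_assoc, le_div_iff₀ h0']
        have : (0 : ℝ) ≤ τ := Nat.cast_nonneg _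
        nlinarith
      linarith
    have h5 : (∑ i ∈ G, (m i : ℝ)) * (1 - τ / mn) ≤ ∑ i ∈ G, ((m i - τ : ℕ) : ℝ) := by
      rw [Finset.sum_mul]
      exact Finset.sum_le_sum h1
    have h6 : 0 ≤ 1 - (τ : ℝ) / mn := by
      rw [sub_nonneg, div_le_one h0']
      exact hτm.le
    have h7 : h * (1 - τ / mn) ≤ (∑ i ∈ G, (m i : ℝ)) * (1 - τ / mn) :=
      mul_le_mul_of_nonneg_right hG h6
    have h8 : (s : ℝ) - 1 < h * (1 - τ / mn) := by
      have h9 : (τ : ℝ) / mn < 1 - (s - 1) / h := by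
        rw [div_lt_iff₀ h0']
        linarith
      have h10 : ((s : ℝ) - 1) / h < 1 - τ / mn := by linarith
      rw [div_lt_iff₀ hh] at h10
      linarith
    have h11 : ((s : ℝ) - 1) < ((∑ i ∈ G, (m i - τ) : ℕ) : ℝ) := by
      push_cast
      linarith
    have h12 : ((s - 1 : ℕ) : ℝ) < ((∑ i ∈ G, (m i - τ) : ℕ) : ℝ) := by
      rw [Nat.cast_sub hs]
      simpa using h11
    have h13 : s - 1 < ∑ i ∈ G, (m i - τ) := by exact_mod_cast h12
    omega
  have hcard := Finset.card_le_card hsub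
  rw [Finset.card_range] at hcard
  have h14 : x ≤ (⌈x⌉₊ : ℝ) := Nat.le_ceil x
  have h15 : ((⌈x⌉₊ : ℕ) : ℝ) ≤ (hts m G K s : ℝ) := by
    unfold hts
    exact_mod_cast hcard
  linarith

theorem hts_le {ι : Type*} (m : ι → ℕ) (G : Finset ι) (K s mx : ℕ) (h : ℝ) (hh : 0 < h)
    (hs : 1 ≤ s) (hmx : ∀ i ∈ G, m i + 1 ≤ mx) (hG : ∑ i ∈ G, ((m i : ℝ) + 1) ≤ h) :
    (hts m G K s : ℝ) ≤ mx * max (1 - s / h) 0 := by
  have hs' : (1 : ℝ) ≤ s := by exact_mod_cast hs
  have hmx0 : (0 : ℝ) ≤ mx := Nat.cast_nonneg _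
  have hmax : 0 ≤ max (1 - s / h) 0 := le_max_right _ _
  have hsub : (Finset.range K).filter (fun τ => s ≤ ∑ i ∈ G, (m i - τ)) ⊆
      Finset.range ⌊(mx : ℝ) * max (1 - s / h) 0⌋₊ := by
    intro τ hτ
    rw [Finset.mem_filter, Finset.mem_range] at hτ
    obtain ⟨_, hτ⟩ := hτ
    rw [Finset.mem_range]
    apply Nat.lt_of_succ_le
    apply Nat.le_floor
    have hGne : G.Nonempty := by
      rcases Finset.eq_empty_or_nonempty G with h0 | h0
      · subst h0
        simp at hτ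
        omega
      · exact h0
    obtain ⟨i1, hi1⟩ := hGne
    have hmxpos : (0 : ℝ) < mx := by
      have := hmx i1 hi1
      have : 0 < mx := by omega
      exact_mod_cast this
    have hτ' : (s : ℝ) ≤ ∑ i ∈ G, ((m i - τ : ℕ) : ℝ) := by
      have : ((s : ℕ) : ℝ) ≤ ((∑ i ∈ G, (m i - τ) : ℕ) : ℝ) := by exact_mod_cast hτ
      push_cast at this
      exact this
    by_contra hcon
    push Not at hcon
    have h0 : (mx : ℝ) * (1 - s / h) < τ + 1 := by
      have h1 : (mx : ℝ) * (1 - s / h) ≤ mx * max (1 - s / h) 0 :=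
        mul_le_mul_of_nonneg_left (le_max_left _ _) hmx0
      push_cast at hcon
      linarith
    have h1 : ∀ i ∈ G, ((m i - τ : ℕ) : ℝ) ≤ (m i + 1) * max (1 - ((τ : ℝ) + 1) / mx) 0 := by
      intro i hi
      have h2 : ((m i : ℝ) + 1) ≤ mx := by exact_mod_cast hmx i hi
      have h20 : (0 : ℝ) ≤ m i + 1 := by positivity
      by_cases hc : τ ≤ m i
      · rw [Nat.cast_sub hc]
        have h3 : ((m i : ℝ) + 1) * (1 - ((τ : ℝ) + 1) / mx) ≤ (m i + 1) * max (1 - ((τ : ℝ) + 1) / mx) 0 :=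
          mul_le_mul_of_nonneg_left (le_max_left _ _) h20
        have h4 : ((m i : ℝ) + 1) * ((τ + 1) / mx) ≤ τ + 1 := by
          rw [← mul_div_assoc, div_le_iff₀ hmxpos]
          have : (0 : ℝ) ≤ τ := Nat.cast_nonneg _
          nlinarith
        linarith
      · rw [Nat.sub_eq_zero_of_le (by omega)]
        simp only [Nat.cast_zero]
        exact mul_nonneg h20 (le_max_right _ _)
    have h5 : ∑ i ∈ G, ((m i - τ : ℕ) : ℝ) ≤
        (∑ i ∈ G, ((m i : ℝ) + 1)) * max (1 - ((τ : ℝ) + 1) / mx) 0 := by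
      rw [Finset.sum_mul]
      exact Finset.sum_le_sum h1
    have h6 : (∑ i ∈ G, ((m i : ℝ) + 1)) * max (1 - ((τ : ℝ) + 1) / mx) 0 ≤
        h * max (1 - ((τ : ℝ) + 1) / mx) 0 :=
      mul_le_mul_of_nonneg_right hG (le_max_right _ _)
    have h7 : (s : ℝ) ≤ h * max (1 - ((τ : ℝ) + 1) / mx) 0 := by linarith
    rcases le_total (1 - ((τ : ℝ) + 1) / mx) 0 with h8 | h8
    · rw [max_eq_right h8] at h7
      linarith
    · rw [max_eq_left h8] at h7
      have h9 : (s : ℝ) / h ≤ 1 - (τ + 1) / mx := by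
        rw [div_le_iff₀ hh]
        linarith
      have h10 : ((τ : ℝ) + 1) / mx ≤ 1 - s / h := by linarith
      rw [div_le_iff₀ hmxpos] at h10
      linarith
  have hcard := Finset.card_le_card hsub
  rw [Finset.card_range] at hcard
  have h14 : ((⌊(mx : ℝ) * max (1 - s / h) 0⌋₊ : ℕ) : ℝ) ≤ mx * max (1 - s / h) 0 :=
    Nat.floor_le (mul_nonneg hmx0 hmax)
  have h15 : (hts m G K s : ℝ) ≤ ((⌊(mx : ℝ) * max (1 - s / h) 0⌋₊ : ℕ) : ℝ) := by
    unfold hts
    exact_mod_cast hcard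
  linarith

/-- (E) with the count: `L s ≥ δ d - (s - 1) δ²`. -/
theorem closedE (n d mm K : ℕ) (m : Fin n → ℕ) (δ : ℝ) (hδ : 0 < δ) (hd : 0 < d)
    (hm : ∀ i, m i ≤ mm) (hK : mm ≤ K)
    (h : (δ * d + mm) * (d / δ + mm) ≤ ∑ i, (m i : ℝ) ^ 2) :
    ∃ (b : ℕ) (g : Fin n → Option (Fin b)), ∀ s : ℕ, 1 ≤ s →
      δ * d - (s - 1) * δ ^ 2 ≤
        ((∑ c : Fin b, hts m (Finset.univ.filter (fun i => g i = some c)) K s : ℕ) : ℝ) := by
  obtain ⟨b, g, mn, h1, h2, h3⟩ := groupsE n d mm m δ hδ hd hm h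
  refine ⟨b, g, ?_⟩
  intro s hs
  have hd' : (0 : ℝ) < d := by exact_mod_cast hd
  have h0 : (0 : ℝ) < d / δ := by positivity
  push_cast
  rcases le_total (1 - ((s : ℝ) - 1) / (d / δ)) 0 with h4 | h4
  · have h5 : δ * d - (s - 1) * δ ^ 2 = δ * d * (1 - (s - 1) / (d / δ)) := by
      field_simp
    have h6 : δ * d * (1 - ((s : ℝ) - 1) / (d / δ)) ≤ 0 :=
      mul_nonpos_of_nonneg_of_nonpos (by positivity) h4
    rw [h5]
    refine le_trans h6 (Finset.sum_nonneg (fun c _ => Nat.cast_nonneg _))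
  · have h5 : δ * d - (s - 1) * δ ^ 2 = δ * d * (1 - (s - 1) / (d / δ)) := by
      field_simp
    rw [h5]
    have h6 : δ * d * (1 - ((s : ℝ) - 1) / (d / δ)) ≤
        (∑ c, (mn c : ℝ)) * (1 - ((s : ℝ) - 1) / (d / δ)) :=
      mul_le_mul_of_nonneg_right h3 h4
    refine le_trans h6 ?_
    rw [Finset.sum_mul]
    apply Finset.sum_le_sum
    intro c _
    have hc1 : ∀ i ∈ Finset.univ.filter (fun i => g i = some c), mn c ≤ m i := by
      intro i hi
      rw [Finset.mem_filter] at hi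
      exact h1 i c hi.2
    have hcne : ∃ i, g i = some c := by
      by_contra hcon
      push Not at hcon
      have := h2 c
      rw [Finset.filter_false_of_mem (fun i _ => hcon i)] at this
      simp only [Finset.sum_empty] at this
      linarith
    obtain ⟨i, hi⟩ := hcne
    exact hts_ge m _ K s (mn c) (d / δ) h0 hs (((h1 i c hi).trans (hm i)).trans hK) hc1 (h2 c)

/-- (R) with the count: `L s ≤ (δ D - s δ²)⁺`. -/
theorem closedR (n M K : ℕ) (D : ℝ) (m : Fin n → ℕ) (δ : ℝ) (hδ : 0 < δ) (hD : 0 < D)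
    (hm : ∀ i, m i + 1 ≤ M) (hM : (M : ℝ) < D / δ)
    (h : ∑ i, ((m i : ℝ) + 1) ^ 2 ≤ (δ * D - M) * (D / δ - M)) :
    ∃ (b : ℕ) (g : Fin n → Fin b), ∀ s : ℕ, 1 ≤ s →
      ((∑ c : Fin b, hts m (Finset.univ.filter (fun i => g i = c)) K s : ℕ) : ℝ) ≤
        max (δ * D - s * δ ^ 2) 0 := by
  obtain ⟨b, g, mx, h1, h2, h3⟩ := groupsR n M D m δ hm hM h
  refine ⟨b, g, ?_⟩
  intro s hs
  have h0 : (0 : ℝ) < D / δ := by positivity
  push_cast
  have h4 : ∀ c, (hts m (Finset.univ.filter (fun i => g i = c)) K s : ℝ) ≤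
      mx c * max (1 - s / (D / δ)) 0 := by
    intro c
    apply hts_le m _ K s (mx c) (D / δ) h0 hs _ (h2 c)
    intro i hi
    rw [Finset.mem_filter] at hi
    rw [← hi.2]
    exact h1 i
  refine le_trans (Finset.sum_le_sum (fun c _ => h4 c)) ?_
  rw [← Finset.sum_mul]
  refine le_trans (mul_le_mul_of_nonneg_right h3 (le_max_right _ _)) ?_
  rw [mul_max_of_nonneg _ _ (by positivity), mul_zero]
  have h5 : δ * D - s * δ ^ 2 = δ * D * (1 - s / (D / δ)) := by
    field_simp
  rw [h5]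

end Pool.Agent.Helper79.AS
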